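import Pool.Agent.Helper44.SPL.St3

/-!
# Basic facts on `lam`, `phiC`, `bc`, `ev2`, `dT`
-/

set_option autoImplicit false

namespace Pool.Agent.Helper93.SPL

open Polynomial Pool.Agent.Helper44.SPL

universe u

section

variable {A B C' : Type u} [CommRing A] [CommRing B] [CommRing C']

theorem ev2_hom (i : A →+* B) (g : B →+* C') (F : A[X][X]) (a b : B) :
    g (ev2 i F a b) = ev2 (g.comp i) F (g a) (g b) := by
  unfold ev2
  rw [← Polynomial.eval₂_hom, Polynomial.eval₂_eq_eval_map, Polynomial.map_map]
  congr 2
  apply Polynomial.ringHom_ext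
  · intro x; simp
  · simp

theorem ev2_dvd (i : A →+* B) (F : A[X][X]) (a b a' b' d : B) (ha : d ∣ a - a')
    (hb : d ∣ b - b') : d ∣ ev2 i F a b - ev2 i F a' b' := by
  rw [← Ideal.mem_span_singleton, ← Ideal.Quotient.eq]
  rw [← Ideal.mem_span_singleton, ← Ideal.Quotient.eq] at ha hb
  rw [ev2_hom, ev2_hom, ha, hb]

theorem ev2_mul (i : A →+* B) (F G : A[X][X]) (a b : B) :
    ev2 i (F * G) a b = ev2 i F a b * ev2 i G a b := by
  simp [ev2]

theorem ev2_C (i : A →+* B) (g : A[X]) (a b : B) :
    ev2 i (C g) a b = g.eval₂ i a := by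
  simp [ev2]

theorem phiC_C (c x : A) : phiC c (C x) = PowerSeries.C x := by simp [phiC]

theorem phiC_X (c : A) : phiC c X = PowerSeries.C c + PowerSeries.X := by simp [phiC]

theorem phiC_comp (i : A →+* B) (c : A) :
    (phiC (i c)).comp (mapRingHom i) = (PowerSeries.map i).comp (phiC c) := by
  apply Polynomial.ringHom_ext
  · intro x; simp [phiC_C]
  · simp [phiC_X]

theorem bc_map (i : A →+* B) (c : A) (F : A[X][X]) :
    (bc i F).map (phiC (i c)) = (F.map (phiC c)).map (PowerSeries.map i) := by
  unfold bc
  rw [Polynomial.map_map, Polynomial.map_map, phiC_comp]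

theorem lam_bc (i : A →+* B) (c : A) (r : PowerSeries B) (F : A[X][X]) :
    lam (i c) r (bc i F) = ev2 ((PowerSeries.C (R := B)).comp i) F
      (PowerSeries.C (i c) + PowerSeries.X) r := by
  unfold lam bc ev2
  rw [Polynomial.map_map]
  congr 2
  apply Polynomial.ringHom_ext
  · intro x; simp [phiC_C]
  · simp [phiC_X]

theorem lam_mul (c : A) (r : PowerSeries A) (F G : A[X][X]) :
    lam c r (F * G) = lam c r F * lam c r G := by simp [lam]

theorem lam_add (c : A) (r : PowerSeries A) (F G : A[X][X]) :
    lam c r (F + G) = lam c r F + lam c r G := by simp [lam]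

theorem lam_sub (c : A) (r : PowerSeries A) (F G : A[X][X]) :
    lam c r (F - G) = lam c r F - lam c r G := by simp [lam]

theorem lam_C (c : A) (r : PowerSeries A) (g : A[X]) :
    lam c r (C g) = phiC c g := by simp [lam]

theorem dT_coeff (G : A[X][X]) (j : ℕ) : (dT G).coeff j = derivative (G.coeff j) := by
  unfold dT
  rw [Polynomial.finsetSum_coeff]
  simp only [Polynomial.coeff_monomial]
  rw [Finset.sum_ite_eq' (Finset.range (G.natDegree + 1)) j]
  split_ifs with h
  · rfl
  · rw [Finset.mem_range, not_lt] at h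
    rw [Polynomial.coeff_eq_zero_of_natDegree_lt (by omega)]
    simp

theorem dT_add (F G : A[X][X]) : dT (F + G) = dT F + dT G := by
  ext1 j; simp [dT_coeff]

theorem dT_monomial (j : ℕ) (g : A[X]) : dT (monomial j g) = monomial j (derivative g) := by
  ext1 l
  rw [dT_coeff, Polynomial.coeff_monomial, Polynomial.coeff_monomial]
  split_ifs <;> simp

/-- `d/ds`. -/
noncomputable abbrev ds : Derivation A (PowerSeries A) (PowerSeries A) := PowerSeries.derivative A

theorem ds_phiC (c : A) (g : A[X]) : ds (phiC c g) = phiC c (derivative g) := by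
  induction g using Polynomial.induction_on' with
  | add p q hp hq => simp [hp, hq]
  | monomial n a =>
    rw [Polynomial.derivative_monomial, ← Polynomial.C_mul_X_pow_eq_monomial,
      ← Polynomial.C_mul_X_pow_eq_monomial, RingHom.map_mul, RingHom.map_mul, RingHom.map_pow,
      RingHom.map_pow, phiC_C, phiC_X, phiC_C, Derivation.leibniz, Derivation.leibniz_pow]
    simp
    ring

theorem ds_lam (c : A) (r : PowerSeries A) (G : A[X][X]) :
    ds (lam c r G) = lam c r (dT G) + lam c r (derivative G) * ds r := by
  induction G using Polynomial.induction_on' with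
  | add p q hp hq =>
    rw [lam_add, map_add, hp, hq, dT_add, lam_add, derivative_add, lam_add]; ring
  | monomial n a =>
    rw [dT_monomial, Polynomial.derivative_monomial]
    simp only [lam, Polynomial.map_monomial, Polynomial.eval_monomial]
    rw [Derivation.leibniz, Derivation.leibniz_pow, ds_phiC]
    simp
    ring

end

end Pool.Agent.Helper93.SPL
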