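import Mathlib

/-!
# The local logarithmic derivative lemma
-/

set_option autoImplicit false

namespace Pool.Agent.Helper93.SPL

universe u

theorem der_prod {S : Type u} [CommRing S] (D : S → S) (h1 : D 1 = 0)
    (hm : ∀ a b, D (a * b) = a * D b + b * D a) {ι : Type} [DecidableEq ι] (T : Finset ι)
    (x : ι → S) (hx : ∀ z ∈ T, D (x z) = 1) :
    D (∏ z ∈ T, x z) = ∑ z ∈ T, ∏ z' ∈ T.erase z, x z' := by
  induction T using Finset.induction_on with
  | empty => simp [h1]
  | insert a s ha ih =>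
    rw [Finset.prod_insert ha, hm, ih (fun z hz => hx z (Finset.mem_insert_of_mem hz)),
      hx a (Finset.mem_insert_self a s), Finset.sum_insert ha, Finset.erase_insert ha, mul_one,
      add_comm, Finset.mul_sum]
    congr 1
    apply Finset.sum_congr rfl
    intro z hz
    have hza : z ≠ a := fun h => ha (h ▸ hz)
    rw [Finset.erase_insert_of_ne hza.symm, Finset.prod_insert]
    exact fun h => ha (Finset.mem_of_mem_erase h)

theorem local_lem {S : Type u} [CommRing S] [IsDomain S] (D : S → S) (h1 : D 1 = 0)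
    (hm : ∀ a b, D (a * b) = a * D b + b * D a) {ι I : Type} [DecidableEq ι] [DecidableEq I]
    [Fintype I] (T : Finset ι) (π : ι → I) (x : ι → S) (hx : ∀ z ∈ T, D (x z) = 1)
    (L y : I → S) (c : ι → S)
    (hdiv : ∀ i, (∏ z ∈ T.filter (fun z => π z = i), x z) ∣ L i)
    (hc : ∀ z ∈ T, x z ∣ y (π z) - c z) (U : S) (hU : (∏ z ∈ T, x z) * U = ∏ i, L i)
    (hne : (∏ z ∈ T, x z) ≠ 0) :
    (∏ z ∈ T, x z) ∣ (∑ i, y i * D (L i) * ∏ l ∈ Finset.univ.erase i, L l) -
      U * ∑ z ∈ T, c z * ∏ z' ∈ T.erase z, x z' := by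
  choose w hw using hdiv
  set Q : I → S := fun i => ∏ z ∈ T.filter (fun z => π z = i), x z with hQ
  have hQQ : ∏ z ∈ T, x z = ∏ i, Q i := by
    rw [hQ]
    exact (Finset.prod_fiberwise T π x).symm
  have hUw : U = ∏ i, w i := by
    apply mul_left_cancel₀ hne
    rw [hU, hQQ, ← Finset.prod_mul_distrib]
    exact Finset.prod_congr rfl (fun i _ => hw i)
  have hsum : ∑ z ∈ T, c z * ∏ z' ∈ T.erase z, x z' =
      ∑ i, ∑ z ∈ T.filter (fun z => π z = i), c z * ∏ z' ∈ T.erase z, x z' :=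
    (Finset.sum_fiberwise T π _).symm
  rw [hsum, Finset.mul_sum, ← Finset.sum_sub_distrib]
  apply Finset.dvd_sum
  intro i _
  set Ti := T.filter (fun z => π z = i) with hTi
  set R := ∏ l ∈ Finset.univ.erase i, Q l with hR
  set W := ∏ l ∈ Finset.univ.erase i, w l with hW
  have hLR : ∏ l ∈ Finset.univ.erase i, L l = R * W := by
    rw [hR, hW, ← Finset.prod_mul_distrib]
    exact Finset.prod_congr rfl (fun l _ => hw l)
  have hQR : ∏ z ∈ T, x z = Q i * R := by
    rw [hQQ, hR, Finset.mul_prod_erase _ _ (Finset.mem_univ i)]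
  have hUW : U = w i * W := by
    rw [hUw, hW, Finset.mul_prod_erase _ _ (Finset.mem_univ i)]
  have hDQ : D (Q i) = ∑ z ∈ Ti, ∏ z' ∈ Ti.erase z, x z' :=
    der_prod D h1 hm Ti x (fun z hz => hx z (Finset.mem_filter.1 hz).1)
  have her : ∀ z ∈ Ti, ∏ z' ∈ T.erase z, x z' = (∏ z' ∈ Ti.erase z, x z') * R := by
    intro z hz
    have hzT : z ∈ T := (Finset.mem_filter.1 hz).1
    have hzi : π z = i := (Finset.mem_filter.1 hz).2
    have e1 : T.erase z = (Ti.erase z) ∪ (T.filter (fun z' => ¬ π z' = i)) := by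
      ext a
      simp only [Finset.mem_erase, Finset.mem_union, hTi, Finset.mem_filter]
      constructor
      · rintro ⟨h1, h2⟩
        by_cases h3 : π a = i
        · exact Or.inl ⟨h1, h2, h3⟩
        · exact Or.inr ⟨h2, h3⟩
      · rintro (⟨h1, h2, h3⟩ | ⟨h1, h2⟩)
        · exact ⟨h1, h2⟩
        · refine ⟨?_, h1⟩
          rintro rfl
          exact h2 hzi
    have e2 : Disjoint (Ti.erase z) (T.filter (fun z' => ¬ π z' = i)) := by
      rw [Finset.disjoint_left]
      intro a ha hb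
      rw [Finset.mem_erase, hTi, Finset.mem_filter] at ha
      rw [Finset.mem_filter] at hb
      exact hb.2 ha.2.2
    rw [e1, Finset.prod_union e2]
    congr 1
    have e3 := Finset.prod_fiberwise (T.filter (fun z' => ¬ π z' = i)) π x
    rw [← e3, ← Finset.mul_prod_erase Finset.univ _ (Finset.mem_univ i), hR]
    have e4 : (T.filter (fun z' => ¬ π z' = i)).filter (fun z' => π z' = i) = ∅ := by
      ext a; simp
    rw [e4, Finset.prod_empty, one_mul]
    apply Finset.prod_congr rfl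
    intro l hl
    have hli : l ≠ i := Finset.ne_of_mem_erase hl
    apply Finset.prod_congr _ (fun _ _ => rfl)
    ext a
    simp only [Finset.mem_filter]
    constructor
    · rintro ⟨⟨h1, h2⟩, h3⟩; exact ⟨h1, h3⟩
    · rintro ⟨h1, h3⟩; exact ⟨⟨h1, fun h => hli (h3 ▸ h ▸ rfl)⟩, h3⟩
  have key : y i * D (L i) * ∏ l ∈ Finset.univ.erase i, L l -
      U * ∑ z ∈ Ti, c z * ∏ z' ∈ T.erase z, x z' =
      (Q i * R) * (y i * D (w i) * W) +
        w i * W * R * ∑ z ∈ Ti, (y i - c z) * ∏ z' ∈ Ti.erase z, x z' := by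
    have e5 : ∑ z ∈ Ti, c z * ∏ z' ∈ T.erase z, x z' =
        R * ∑ z ∈ Ti, c z * ∏ z' ∈ Ti.erase z, x z' := by
      rw [Finset.mul_sum]
      apply Finset.sum_congr rfl
      intro z hz
      rw [her z hz]; ring
    have e6 : ∑ z ∈ Ti, (y i - c z) * ∏ z' ∈ Ti.erase z, x z' =
        y i * D (Q i) - ∑ z ∈ Ti, c z * ∏ z' ∈ Ti.erase z, x z' := by
      rw [hDQ, Finset.mul_sum, ← Finset.sum_sub_distrib]
      apply Finset.sum_congr rfl
      intro z _
      ring
    rw [e5, e6, hLR, hUW, hw i, hm]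
    ring
  rw [key, hQR]
  apply dvd_add (dvd_mul_right _ _)
  have h3 : Q i ∣ ∑ z ∈ Ti, (y i - c z) * ∏ z' ∈ Ti.erase z, x z' := by
    apply Finset.dvd_sum
    intro z hz
    have hzT : z ∈ T := (Finset.mem_filter.1 hz).1
    have hzi : π z = i := (Finset.mem_filter.1 hz).2
    have := hc z hzT
    rw [hzi] at this
    have e7 : Q i = x z * ∏ z' ∈ Ti.erase z, x z' := (Finset.mul_prod_erase Ti x hz).symm
    rw [e7]
    exact mul_dvd_mul_right this _
  obtain ⟨q, hq⟩ := h3
  rw [hq]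
  exact ⟨w i * W * q, by ring⟩

end Pool.Agent.Helper93.SPL
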