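import Pool.Agent.Helper93.SPL.LamBase
import Pool.Agent.Helper93.SPL.LocLem

/-!
# The local logarithmic derivative lemma, with the zeros at the other points
-/

set_option autoImplicit false

namespace Pool.Agent.Helper93.SPL

open Polynomial Pool.Agent.Helper44.SPL

universe u

theorem local_lem2 {S : Type u} [CommRing S] [IsDomain S] (D : S → S) (h1 : D 1 = 0)
    (hm : ∀ a b, D (a * b) = a * D b + b * D a) {ι I : Type} [DecidableEq ι] [Fintype ι]
    [DecidableEq I] [Fintype I] (T : Finset ι) (π : ι → I) (lin : ι → S)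
    (hx : ∀ z ∈ T, D (lin z) = 1) (L y : I → S) (c : ι → S)
    (hdiv : ∀ i, (∏ z ∈ T.filter (fun z => π z = i), lin z) ∣ L i)
    (hc : ∀ z ∈ T, lin z ∣ y (π z) - c z) (cc : S) (hU : cc * ∏ z, lin z = ∏ i, L i)
    (hne : (∏ z ∈ T, lin z) ≠ 0) :
    (∏ z ∈ T, lin z) ∣ (∑ i, y i * D (L i) * ∏ l ∈ Finset.univ.erase i, L l) -
      cc * ∑ z, c z * ∏ z' ∈ Finset.univ.erase z, lin z' := by
  have hprod : ∏ z, lin z = (∏ z ∈ T, lin z) * ∏ z ∈ Tᶜ, lin z :=
    (Finset.prod_mul_prod_compl T lin).symm
  have hloc := local_lem D h1 hm T π lin hx L y c hdiv hc (cc * ∏ z ∈ Tᶜ, lin z)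
    (by rw [← hU, hprod]; ring) hne
  have hsplit : ∑ z, c z * ∏ z' ∈ Finset.univ.erase z, lin z' =
      ∑ z ∈ T, c z * ∏ z' ∈ Finset.univ.erase z, lin z' +
        ∑ z ∈ Tᶜ, c z * ∏ z' ∈ Finset.univ.erase z, lin z' :=
    (Finset.sum_add_sum_compl T _).symm
  have hT : ∑ z ∈ T, c z * ∏ z' ∈ Finset.univ.erase z, lin z' =
      (∏ z ∈ Tᶜ, lin z) * ∑ z ∈ T, c z * ∏ z' ∈ T.erase z, lin z' := by
    rw [Finset.mul_sum]
    apply Finset.sum_congr rfl
    intro z hz
    have e1 : (Finset.univ : Finset ι).erase z = T.erase z ∪ Tᶜ := by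
      ext a
      simp only [Finset.mem_erase, Finset.mem_univ, and_true, Finset.mem_union,
        Finset.mem_compl]
      constructor
      · intro h
        by_cases h3 : a ∈ T
        · exact Or.inl ⟨h, h3⟩
        · exact Or.inr h3
      · rintro (⟨h, _⟩ | h)
        · exact h
        · rintro rfl; exact h hz
    have e2 : Disjoint (T.erase z) Tᶜ := by
      rw [Finset.disjoint_left]
      intro a ha hb
      exact (Finset.mem_compl.1 hb) (Finset.mem_of_mem_erase ha)
    rw [e1, Finset.prod_union e2]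
    ring
  have hTc : (∏ z ∈ T, lin z) ∣ ∑ z ∈ Tᶜ, c z * ∏ z' ∈ Finset.univ.erase z, lin z' := by
    apply Finset.dvd_sum
    intro z hz
    apply Dvd.dvd.mul_left
    apply Finset.prod_dvd_prod_of_subset
    intro a ha
    rw [Finset.mem_erase]
    refine ⟨?_, Finset.mem_univ a⟩
    rintro rfl
    exact (Finset.mem_compl.1 hz) ha
  obtain ⟨q1, hq1⟩ := hloc
  obtain ⟨q2, hq2⟩ := hTc
  rw [hsplit, hT, hq2]
  refine ⟨q1 - cc * q2, ?_⟩
  linear_combination hq1

/-- Hensel: near a root, the linear factor divides. -/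
theorem root_dvd {K : Type u} [Field K] {n : ℕ} (f : K[X][X]) (c : K)
    (r : Fin n → PowerSeries K) (hr : f.map (phiC c) = ∏ i, (X - C (r i)))
    (hinj : Function.Injective (fun i => PowerSeries.constantCoeff (r i)))
    (a th : PowerSeries K)
    (hf : ev2 PowerSeries.C f (PowerSeries.C c + a) th = 0) (i : Fin n)
    (hth : PowerSeries.constantCoeff th = PowerSeries.constantCoeff (r i)) :
    (PowerSeries.X - PowerSeries.C a : PowerSeries (PowerSeries K)) ∣
      PowerSeries.map PowerSeries.C (r i) - PowerSeries.C th := by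
  classical
  -- the product over all roots
  have hmap : (bc PowerSeries.C f).map (phiC (PowerSeries.C c)) =
      ∏ i, (X - C (PowerSeries.map PowerSeries.C (r i))) := by
    rw [bc_map, hr, Polynomial.map_prod]
    simp
  have h1 : ev2 ((PowerSeries.C (R := PowerSeries K)).comp PowerSeries.C) f
      (PowerSeries.C (PowerSeries.C c) + PowerSeries.X) (PowerSeries.C th) =
      ∏ j, (PowerSeries.C th - PowerSeries.map PowerSeries.C (r j)) := by
    rw [← lam_bc, lam, hmap, Polynomial.eval_prod]
    simp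
  have h2 : ev2 ((PowerSeries.C (R := PowerSeries K)).comp PowerSeries.C) f
      (PowerSeries.C (PowerSeries.C c + a)) (PowerSeries.C th) = 0 := by
    rw [← ev2_hom, hf, map_zero]
  have h3 : (PowerSeries.X - PowerSeries.C a : PowerSeries (PowerSeries K)) ∣
      ∏ j, (PowerSeries.C th - PowerSeries.map PowerSeries.C (r j)) := by
    rw [← h1]
    have := ev2_dvd ((PowerSeries.C (R := PowerSeries K)).comp PowerSeries.C) f
      (PowerSeries.C (PowerSeries.C c) + PowerSeries.X) (PowerSeries.C th)
      (PowerSeries.C (PowerSeries.C c + a)) (PowerSeries.C th)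
      (PowerSeries.X - PowerSeries.C a) ⟨1, by rw [map_add]; ring⟩ (by rw [sub_self]; exact dvd_zero _)
    rwa [h2, sub_zero] at this
  have h4 : ∀ j ∈ Finset.univ.erase i,
      IsUnit (PowerSeries.C th - PowerSeries.map PowerSeries.C (r j) :
        PowerSeries (PowerSeries K)) := by
    intro j hj
    rw [PowerSeries.isUnit_iff_constantCoeff, map_sub, PowerSeries.constantCoeff_C,
      PowerSeries.isUnit_iff_constantCoeff, map_sub, hth]
    have e1 : PowerSeries.constantCoeff (PowerSeries.constantCoeff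
        (PowerSeries.map PowerSeries.C (r j)) : PowerSeries K) =
        PowerSeries.constantCoeff (r j) := by
      have e0 : (PowerSeries.constantCoeff (PowerSeries.map PowerSeries.C (r j)) :
          PowerSeries K) = PowerSeries.C (PowerSeries.constantCoeff (r j)) := by
        have h6 := PowerSeries.coeff_map (PowerSeries.C (R := K)) 0 (r j)
        rwa [PowerSeries.coeff_zero_eq_constantCoeff_apply,
          PowerSeries.coeff_zero_eq_constantCoeff_apply] at h6
      rw [e0, PowerSeries.constantCoeff_C]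
    rw [e1, isUnit_iff_ne_zero, sub_ne_zero]
    exact fun h => Finset.ne_of_mem_erase hj (hinj h).symm
  rw [← Finset.mul_prod_erase _ _ (Finset.mem_univ i)] at h3
  have h5 : IsUnit (∏ j ∈ Finset.univ.erase i,
      (PowerSeries.C th - PowerSeries.map PowerSeries.C (r j) :
        PowerSeries (PowerSeries K))) := by
    rw [← Finset.prod_coe_sort]
    apply IsUnit.prod_univ_iff.2
    intro j
    exact h4 j.1 j.2
  rw [h5.dvd_mul_right] at h3
  rw [← dvd_neg]
  simpa using h3

end Pool.Agent.Helper93.SPL
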